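import Pool.Agent.N906.SZ.Stm

set_option autoImplicit false

/-!
# Project SZ, leaf REG: lattice points in the region `|D| ≤ Y` in residue classes
-/

namespace Pool.Agent.N487.SZ

open Finset Pool.Agent.N906.SZ

/-- integers in a residue class in an interval -/
theorem cls_card (S : Finset ℤ) (M : ℕ) (hM : 1 ≤ M) (β : ℤ) (u v : ℝ) (huv : u ≤ v)
    (h : ∀ x ∈ S, (M : ℤ) ∣ x - β ∧ u ≤ x ∧ (x : ℝ) ≤ v) : (S.card : ℝ) ≤ (v - u) / M + 1 := by
  have hM0 : (0 : ℝ) < M := by exact_mod_cast hM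
  have hMz : (M : ℤ) ≠ 0 := by exact_mod_cast (by omega : M ≠ 0)
  have h1 : S.card ≤ (Finset.Icc ⌈(u - β) / M⌉ ⌊(v - β) / M⌋).card := by
    refine Finset.card_le_card_of_injOn (fun x => (x - β) / (M : ℤ)) ?_ ?_
    · intro x hx
      obtain ⟨⟨k, hk⟩, h2, h3⟩ := h x hx
      have e : (x - β) / (M : ℤ) = k := by rw [hk]; exact Int.mul_ediv_cancel_left k hMz
      have hx' : (x : ℝ) - β = M * k := by exact_mod_cast hk
      simp only [Finset.coe_Icc, Set.mem_Icc]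
      rw [e]
      constructor
      · rw [Int.ceil_le, div_le_iff₀ hM0]
        nlinarith
      · rw [Int.le_floor, le_div_iff₀ hM0]
        nlinarith
    · intro x hx y hy hxy
      obtain ⟨⟨k, hk⟩, -⟩ := h x hx
      obtain ⟨⟨k', hk'⟩, -⟩ := h y hy
      simp only at hxy
      rw [hk, hk', Int.mul_ediv_cancel_left k hMz, Int.mul_ediv_cancel_left k' hMz] at hxy
      rw [hxy] at hk
      omega
  have h2 : ((Finset.Icc ⌈(u - β) / M⌉ ⌊(v - β) / M⌋).card : ℝ) ≤ (v - u) / M + 1 := by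
    rw [Int.card_Icc]
    have h3 : (u - β) / M ≤ ⌈(u - β) / (M : ℝ)⌉ := Int.le_ceil _
    have h4 : (⌊(v - β) / (M : ℝ)⌋ : ℝ) ≤ (v - β) / M := Int.floor_le _
    have h5 : (v - β) / M - (u - β) / M = (v - u) / M := by ring
    have h6 : 0 ≤ (v - u) / M := div_nonneg (by linarith) hM0.le
    rcases le_total 0 (⌊(v - β) / (M : ℝ)⌋ + 1 - ⌈(u - β) / (M : ℝ)⌉) with h7 | h7
    · have h8 : (((⌊(v - β) / (M : ℝ)⌋ + 1 - ⌈(u - β) / (M : ℝ)⌉).toNat : ℤ) : ℝ) =
          ((⌊(v - β) / (M : ℝ)⌋ + 1 - ⌈(u - β) / (M : ℝ)⌉ : ℤ) : ℝ) := by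
        rw [Int.toNat_of_nonneg h7]
      have h9 : (((⌊(v - β) / (M : ℝ)⌋ + 1 - ⌈(u - β) / (M : ℝ)⌉).toNat : ℕ) : ℝ) =
          (⌊(v - β) / (M : ℝ)⌋ : ℝ) + 1 - (⌈(u - β) / (M : ℝ)⌉ : ℝ) := by
        rw [← Int.cast_natCast, h8]
        push_cast
        ring
      rw [h9]
      linarith
    · rw [Int.toNat_of_nonpos h7]
      simp only [Nat.cast_zero]
      linarith
  calc (S.card : ℝ) ≤ ((Finset.Icc ⌈(u - β) / M⌉ ⌊(v - β) / M⌋).card : ℝ) := by exact_mod_cast h1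
    _ ≤ _ := h2

/-- the comparison with the integral -/
theorem step (y M : ℝ) (hy : 0 < y) (hM : 0 < M) :
    1 / ((y + M) * √(y + M)) ≤ 2 / M * (1 / √y - 1 / √(y + M)) := by
  obtain ⟨s, hs⟩ : ∃ s, s = √y := ⟨_, rfl⟩
  obtain ⟨t, ht⟩ : ∃ t, t = √(y + M) := ⟨_, rfl⟩
  have hs0 : 0 < s := by rw [hs]; exact Real.sqrt_pos.2 hy
  have ht0 : 0 < t := by rw [ht]; exact Real.sqrt_pos.2 (by linarith)
  have hs2 : y = s ^ 2 := by rw [hs, Real.sq_sqrt hy.le]
  have ht2 : y + M = t ^ 2 := by rw [ht, Real.sq_sqrt (by linarith)]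
  rw [← hs, ← ht, ht2]
  have hM' : M = t ^ 2 - s ^ 2 := by linarith
  have hst : s < t := by nlinarith
  rw [hM'] at hM ⊢
  have e : 2 / (t ^ 2 - s ^ 2) * (1 / s - 1 / t) = 2 / ((t + s) * s * t) := by
    have h1 : t ^ 2 - s ^ 2 = (t - s) * (t + s) := by ring
    have h2 : t - s ≠ 0 := by linarith
    have h3 : t + s ≠ 0 := by linarith
    rw [h1]
    field_simp
  rw [e, div_le_div_iff₀ (by positivity) (by positivity)]
  nlinarith [mul_pos hs0 ht0, mul_pos ht0 ht0, mul_self_nonneg (t - s),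
    mul_nonneg (mul_nonneg ht0.le ht0.le) (sub_nonneg.2 hst.le), mul_pos hs0 hs0,
    mul_nonneg (mul_nonneg ht0.le hs0.le) (sub_nonneg.2 hst.le)]

theorem sum_range (y M : ℝ) (hy : 0 < y) (hM : 0 < M) (K : ℕ) :
    ∑ k ∈ range (K + 1), 1 / ((y + M * k) * √(y + M * k)) ≤
      1 / (y * √y) + 2 / M * (1 / √y - 1 / √(y + M * K)) := by
  induction K with
  | zero => simp
  | succ K ih =>
    rw [Finset.sum_range_succ]
    have h := step (y + M * K) M (by positivity) hM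
    have e : y + M * K + M = y + M * (K + 1 : ℕ) := by push_cast; ring
    rw [e] at h
    have e2 : 2 / M * (1 / √y - 1 / √(y + M * (K + 1 : ℕ))) =
        2 / M * (1 / √y - 1 / √(y + M * K)) +
        2 / M * (1 / √(y + M * K) - 1 / √(y + M * (K + 1 : ℕ))) := by ring
    rw [e2]
    linarith

/-- the sum of `a ^ (-3/2)` over a residue class -/
theorem sum_inv (S : Finset ℤ) (M : ℕ) (hM : 1 ≤ M) (α : ℤ) (A : ℝ) (hA : (M : ℝ) ≤ A)
    (h : ∀ x ∈ S, (M : ℤ) ∣ x - α ∧ A < x) :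
    ∑ x ∈ S, 1 / ((x : ℝ) * √x) ≤ 3 / (√A * M) := by
  have hM0 : (0 : ℝ) < M := by exact_mod_cast hM
  have hA0 : 0 < A := lt_of_lt_of_le hM0 hA
  have hsA : 0 < √A := Real.sqrt_pos.2 hA0
  rcases S.eq_empty_or_nonempty with hS | hS
  · rw [hS, Finset.sum_empty]
    positivity
  obtain ⟨a, ha⟩ : ∃ a, a = S.min' hS := ⟨_, rfl⟩
  have haS : a ∈ S := by rw [ha]; exact S.min'_mem hS
  have hmin : ∀ x ∈ S, a ≤ x := fun x hx => by rw [ha]; exact S.min'_le x hx
  have haA : A < a := (h a haS).2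
  have ha0 : (0 : ℝ) < a := lt_trans hA0 haA
  -- the index
  have hk : ∀ x ∈ S, ∃ k : ℕ, x = a + M * k := by
    intro x hx
    obtain ⟨k₁, h1⟩ := (h x hx).1
    obtain ⟨k₂, h2⟩ := (h a haS).1
    have h3 : x - a = M * (k₁ - k₂) := by rw [mul_sub, ← h1, ← h2]; ring
    have h4 : 0 ≤ k₁ - k₂ := by
      have h5 := hmin x hx
      by_contra hcon
      push Not at hcon
      have h6 : (M : ℤ) * (k₁ - k₂) < 0 := mul_neg_of_pos_of_neg (by exact_mod_cast hM) hcon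
      omega
    obtain ⟨k, hk⟩ := Int.eq_ofNat_of_zero_le h4
    exact ⟨k, by rw [hk] at h3; linarith⟩
  choose! κ hκ using hk
  have hinj : Set.InjOn κ (S : Set ℤ) := by
    intro x hx y hy hxy
    rw [hκ x hx, hκ y hy, hxy]
  obtain ⟨K, hK⟩ : ∃ K, ∀ x ∈ S, κ x ≤ K := ⟨S.sup κ, fun x hx => Finset.le_sup hx⟩
  have h1 : ∑ x ∈ S, 1 / ((x : ℝ) * √x) =
      ∑ k ∈ S.image κ, 1 / (((a : ℝ) + M * k) * √((a : ℝ) + M * k)) := by
    rw [Finset.sum_image hinj]
    refine Finset.sum_congr rfl fun x hx => ?_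
    have : (x : ℝ) = a + M * κ x := by exact_mod_cast hκ x hx
    rw [← this]
  rw [h1]
  have h2 : ∑ k ∈ S.image κ, 1 / (((a : ℝ) + M * k) * √((a : ℝ) + M * k)) ≤
      ∑ k ∈ range (K + 1), 1 / (((a : ℝ) + M * k) * √((a : ℝ) + M * k)) := by
    refine Finset.sum_le_sum_of_subset_of_nonneg ?_ ?_
    · intro k hk
      obtain ⟨x, hx, rfl⟩ := Finset.mem_image.1 hk
      exact Finset.mem_range.2 (Nat.lt_succ_of_le (hK x hx))
    · intro k _ _
      positivity
  refine h2.trans ((sum_range a M ha0 hM0 K).trans ?_)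
  have hsa : √A ≤ √(a : ℝ) := Real.sqrt_le_sqrt haA.le
  have h3 : 1 / ((a : ℝ) * √a) ≤ 1 / (M * √A) := by
    apply one_div_le_one_div_of_le (by positivity)
    exact mul_le_mul (hA.trans haA.le) hsa hsA.le ha0.le
  have h4 : 1 / √(a : ℝ) - 1 / √((a : ℝ) + M * K) ≤ 1 / √A := by
    have h5 : 1 / √(a : ℝ) ≤ 1 / √A := one_div_le_one_div_of_le hsA hsa
    have h6 : 0 ≤ 1 / √((a : ℝ) + M * K) := by positivity
    linarith
  have h5 : 2 / (M : ℝ) * (1 / √(a : ℝ) - 1 / √((a : ℝ) + M * K)) ≤ 2 / M * (1 / √A) := by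
    gcongr
  calc 1 / ((a : ℝ) * √a) + 2 / (M : ℝ) * (1 / √(a : ℝ) - 1 / √((a : ℝ) + M * K))
      ≤ 1 / (M * √A) + 2 / M * (1 / √A) := add_le_add h3 h5
    _ = 3 / (√A * M) := by field_simp; norm_num

/-- one class -/
theorem fiber (X A : ℝ) (M : ℕ) (α β : ℤ) (hX : 1 ≤ X) (hM : 1 ≤ M) (hMA : (M : ℝ) ≤ A)
    (hAX : A ≤ 4 * X ^ 2) (G : Finset (ℤ × ℤ))
    (hG : ∀ x ∈ G, (M : ℤ) ∣ x.1 - α ∧ (M : ℤ) ∣ x.2 - β ∧ |(x.1 : ℝ)| ≤ X ^ 2 ∧
      |((Dd x.1 x.2 : ℤ) : ℝ)| ≤ A ^ 3) :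
    (G.card : ℝ) ≤ 10 * (A ^ 2 * √A / M ^ 2 + X ^ 2 / M) := by
  classical
  have hM0 : (0 : ℝ) < M := by exact_mod_cast hM
  have hM1 : (1 : ℝ) ≤ M := by exact_mod_cast hM
  have hA0 : 0 < A := lt_of_lt_of_le hM0 hMA
  have hA1 : 1 ≤ A := hM1.trans hMA
  have hsA : 0 < √A := Real.sqrt_pos.2 hA0
  have hsA1 : 1 ≤ √A := by rw [Real.one_le_sqrt]; exact hA1
  have hsq : √A * √A = A := Real.mul_self_sqrt hA0.le
  have hD : ∀ x ∈ G, -(A ^ 3) ≤ 4 * (x.1 : ℝ) ^ 3 - 27 * (x.2 : ℝ) ^ 2 ∧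
      4 * (x.1 : ℝ) ^ 3 - 27 * (x.2 : ℝ) ^ 2 ≤ A ^ 3 := by
    intro x hx
    have h1 := (hG x hx).2.2.2
    unfold Dd at h1
    push_cast at h1
    exact abs_le.1 h1
  obtain ⟨G1, hG1⟩ : ∃ G1, G1 = G.filter (fun x => (x.1 : ℝ) ≤ A) := ⟨_, rfl⟩
  obtain ⟨G3, hG3⟩ : ∃ G3, G3 = G.filter (fun x => ¬ (x.1 : ℝ) ≤ A) := ⟨_, rfl⟩
  have hsplit : G.card = G1.card + G3.card := by
    rw [hG1, hG3]
    exact (Finset.card_filter_add_card_filter_not _).symm
  -- small `a`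
  have hc1 : (G1.card : ℝ) ≤ 6 * (A ^ 2 * √A / M ^ 2) := by
    have hsub : G1 ⊆ (G1.image Prod.fst) ×ˢ (G1.image Prod.snd) := by
      intro x hx
      rw [Finset.mem_product]
      exact ⟨Finset.mem_image_of_mem _ hx, Finset.mem_image_of_mem _ hx⟩
    have hcard : (G1.card : ℝ) ≤ (G1.image Prod.fst).card * (G1.image Prod.snd).card := by
      have := Finset.card_le_card hsub
      rw [Finset.card_product] at this
      exact_mod_cast this
    have hlow : ∀ x ∈ G1, -A ≤ (x.1 : ℝ) ∧ (x.1 : ℝ) ≤ A := by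
      intro x hx
      rw [hG1, Finset.mem_filter] at hx
      refine ⟨?_, hx.2⟩
      by_contra hcon
      push Not at hcon
      have h1 := (hD x hx.1).1
      have h2 : (x.1 : ℝ) ^ 3 < (-A) ^ 3 := by
        have : Odd 3 := by decide
        exact this.strictMono_pow hcon
      have h3 : (-A) ^ 3 = -(A ^ 3) := by ring
      have h4 : 0 < A ^ 3 := by positivity
      nlinarith [sq_nonneg (x.2 : ℝ)]
    have ha : ((G1.image Prod.fst).card : ℝ) ≤ 3 * A / M := by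
      have h1 := cls_card (G1.image Prod.fst) M hM α (-A) A (by linarith) (by
        intro y hy
        obtain ⟨x, hx, rfl⟩ := Finset.mem_image.1 hy
        have h2 := hlow x hx
        rw [hG1, Finset.mem_filter] at hx
        exact ⟨(hG x hx.1).1, h2⟩)
      have h3 : 1 ≤ A / M := by rw [le_div_iff₀ hM0]; linarith
      calc _ ≤ (A - -A) / M + 1 := h1
        _ ≤ (A - -A) / M + A / M := by linarith
        _ = 3 * A / M := by ring
    have hb : ((G1.image Prod.snd).card : ℝ) ≤ 2 * (A * √A) / M := by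
      have h1 := cls_card (G1.image Prod.snd) M hM β (-(A * √A / 2)) (A * √A / 2)
        (by have : 0 < A * √A := by positivity
            linarith) (by
        intro y hy
        obtain ⟨x, hx, rfl⟩ := Finset.mem_image.1 hy
        have h2 := hlow x hx
        rw [hG1, Finset.mem_filter] at hx
        refine ⟨(hG x hx.1).2.1, ?_⟩
        have h3 := (hD x hx.1).1
        have h4 : (x.1 : ℝ) ^ 3 ≤ A ^ 3 := by
          have : Odd 3 := by decide
          exact this.strictMono_pow.monotone h2.2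
        have h5 : (x.2 : ℝ) ^ 2 ≤ (A * √A / 2) ^ 2 := by
          have : (A * √A / 2) ^ 2 = A ^ 3 / 4 := by
            calc (A * √A / 2) ^ 2 = A ^ 2 * (√A * √A) / 4 := by ring
              _ = A ^ 3 / 4 := by rw [hsq]; ring
          rw [this]
          have h6 : 0 < A ^ 3 := by positivity
          nlinarith
        exact abs_le.1 (abs_le_of_sq_le_sq h5 (by positivity)))
      have h3 : 1 ≤ A * √A / M := by
        rw [le_div_iff₀ hM0]
        nlinarith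
      calc _ ≤ (A * √A / 2 - -(A * √A / 2)) / M + 1 := h1
        _ ≤ (A * √A / 2 - -(A * √A / 2)) / M + A * √A / M := by linarith
        _ = 2 * (A * √A) / M := by ring
    calc (G1.card : ℝ) ≤ (G1.image Prod.fst).card * (G1.image Prod.snd).card := hcard
      _ ≤ (3 * A / M) * (2 * (A * √A) / M) :=
          mul_le_mul ha hb (by positivity) (by positivity)
      _ = 6 * (A ^ 2 * √A / M ^ 2) := by field_simp; ring
  -- large `a`
  have hc3 : (G3.card : ℝ) ≤ 2 / 3 * (A ^ 2 * √A / M ^ 2) + 10 * (X ^ 2 / M) := by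
    have hG3m : ∀ x ∈ G3, x ∈ G ∧ A < (x.1 : ℝ) := by
      intro x hx
      rw [hG3, Finset.mem_filter] at hx
      exact ⟨hx.1, not_le.1 hx.2⟩
    have hfib : ∀ a ∈ G3.image Prod.fst,
        ((G3.filter (fun x => x.1 = a)).card : ℝ) ≤
          2 * A ^ 3 / (9 * M) * (1 / ((a : ℝ) * √a)) + 2 := by
      intro a ha
      obtain ⟨x₀, hx₀, hx₀a⟩ := Finset.mem_image.1 ha
      have haA : A < (a : ℝ) := by rw [← hx₀a]; exact (hG3m x₀ hx₀).2
      have ha0 : (0 : ℝ) < a := hA0.trans haA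
      have hsa : 0 < √(a : ℝ) := Real.sqrt_pos.2 ha0
      have hsqa : √(a : ℝ) * √a = a := Real.mul_self_sqrt ha0.le
      have hA3 : A ^ 3 < (a : ℝ) ^ 3 := by gcongr
      have hA30 : 0 < A ^ 3 := by positivity
      obtain ⟨s1, hs1⟩ : ∃ s1, s1 = √((4 * (a : ℝ) ^ 3 - A ^ 3) / 27) := ⟨_, rfl⟩
      obtain ⟨s2, hs2⟩ : ∃ s2, s2 = √((4 * (a : ℝ) ^ 3 + A ^ 3) / 27) := ⟨_, rfl⟩
      have hs1q : s1 ^ 2 = (4 * (a : ℝ) ^ 3 - A ^ 3) / 27 := by
        rw [hs1]; exact Real.sq_sqrt (by linarith)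
      have hs2q : s2 ^ 2 = (4 * (a : ℝ) ^ 3 + A ^ 3) / 27 := by
        rw [hs2]; exact Real.sq_sqrt (by linarith)
      have hs10 : 0 ≤ s1 := by rw [hs1]; exact Real.sqrt_nonneg _
      have hs20 : 0 ≤ s2 := by rw [hs2]; exact Real.sqrt_nonneg _
      have hs12 : s1 ≤ s2 := by
        rw [hs1, hs2]
        exact Real.sqrt_le_sqrt (by linarith)
      have hlow : (a : ℝ) * √a / 3 ≤ s1 := by
        refine abs_le_of_sq_le_sq' ?_ hs10 |>.2
        rw [hs1q]
        have : ((a : ℝ) * √a / 3) ^ 2 = (a : ℝ) ^ 3 / 9 := by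
          calc ((a : ℝ) * √a / 3) ^ 2 = (a : ℝ) ^ 2 * (√(a : ℝ) * √a) / 9 := by ring
            _ = (a : ℝ) ^ 3 / 9 := by rw [hsqa]; ring
        rw [this]
        linarith
      have hdiff : s2 - s1 ≤ A ^ 3 / 9 * (1 / ((a : ℝ) * √a)) := by
        have h1 : (s2 - s1) * (s2 + s1) = 2 * A ^ 3 / 27 := by
          have : (s2 - s1) * (s2 + s1) = s2 ^ 2 - s1 ^ 2 := by ring
          rw [this, hs1q, hs2q]
          ring
        have h2 : 2 * ((a : ℝ) * √a / 3) ≤ s2 + s1 := by linarith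
        have h3 : 0 < (a : ℝ) * √a := by positivity
        have h4 : (s2 - s1) * (2 * ((a : ℝ) * √a / 3)) ≤ 2 * A ^ 3 / 27 := by
          rw [← h1]
          exact mul_le_mul_of_nonneg_left h2 (by linarith)
        rw [mul_one_div, le_div_iff₀ h3]
        linarith
      -- the two signs
      obtain ⟨H, hH⟩ : ∃ H, H = (G3.filter (fun x => x.1 = a)).image Prod.snd := ⟨_, rfl⟩
      have hHc : (G3.filter (fun x => x.1 = a)).card = H.card := by
        rw [hH, Finset.card_image_of_injOn]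
        intro x hx y hy hxy
        have h1 := (Finset.mem_filter.1 hx).2
        have h2 := (Finset.mem_filter.1 hy).2
        exact Prod.ext (h1.trans h2.symm) hxy
      have hHm : ∀ b ∈ H, (M : ℤ) ∣ b - β ∧ s1 ^ 2 ≤ (b : ℝ) ^ 2 ∧ (b : ℝ) ^ 2 ≤ s2 ^ 2 := by
        intro b hb
        rw [hH] at hb
        obtain ⟨x, hx, rfl⟩ := Finset.mem_image.1 hb
        obtain ⟨hx3, hxa⟩ := Finset.mem_filter.1 hx
        have h1 := (hG3m x hx3).1
        have h2 := hD x h1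
        rw [hxa] at h2
        refine ⟨(hG x h1).2.1, ?_, ?_⟩
        · rw [hs1q]; linarith
        · rw [hs2q]; linarith
      have hpos : (((H.filter (fun b => 0 ≤ b)).card : ℕ) : ℝ) ≤ (s2 - s1) / M + 1 := by
        refine cls_card _ M hM β s1 s2 hs12 ?_
        intro b hb
        obtain ⟨hb1, hb2⟩ := Finset.mem_filter.1 hb
        obtain ⟨h1, h2, h3⟩ := hHm b hb1
        have hb0 : (0 : ℝ) ≤ b := by exact_mod_cast hb2
        exact ⟨h1, (pow_le_pow_iff_left₀ hs10 hb0 two_ne_zero).1 h2,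
          (pow_le_pow_iff_left₀ hb0 hs20 two_ne_zero).1 h3⟩
      have hneg : (((H.filter (fun b => ¬ 0 ≤ b)).card : ℕ) : ℝ) ≤ (s2 - s1) / M + 1 := by
        have h0 := cls_card (H.filter (fun b => ¬ 0 ≤ b)) M hM β (-s2) (-s1) (by linarith) (by
          intro b hb
          obtain ⟨hb1, hb2⟩ := Finset.mem_filter.1 hb
          obtain ⟨h1, h2, h3⟩ := hHm b hb1
          have hb0 : (0 : ℝ) ≤ -b := by
            push Not at hb2
            have : (b : ℝ) < 0 := by exact_mod_cast hb2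
            linarith
          have h4 : s1 ≤ -(b : ℝ) :=
            (pow_le_pow_iff_left₀ hs10 hb0 two_ne_zero).1 (by rw [neg_sq]; exact h2)
          have h5 : -(b : ℝ) ≤ s2 :=
            (pow_le_pow_iff_left₀ hb0 hs20 two_ne_zero).1 (by rw [neg_sq]; exact h3)
          exact ⟨h1, by linarith, by linarith⟩)
        calc _ ≤ (-s1 - -s2) / M + 1 := h0
          _ = _ := by ring
      have hsum : (H.card : ℝ) = ((H.filter (fun b => 0 ≤ b)).card : ℕ) +
          ((H.filter (fun b => ¬ 0 ≤ b)).card : ℕ) := by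
        exact_mod_cast (Finset.card_filter_add_card_filter_not (s := H) (fun b => 0 ≤ b)).symm
      rw [hHc, hsum]
      have h9 : (s2 - s1) / M ≤ A ^ 3 / 9 * (1 / ((a : ℝ) * √a)) / M := by gcongr
      have h10 : A ^ 3 / 9 * (1 / ((a : ℝ) * √a)) / M * 2 =
          2 * A ^ 3 / (9 * M) * (1 / ((a : ℝ) * √a)) := by field_simp
      linarith
    have hcardsum : (G3.card : ℝ) =
        ∑ a ∈ G3.image Prod.fst, ((G3.filter (fun x => x.1 = a)).card : ℝ) := by
      have := Finset.card_eq_sum_card_image (Prod.fst) G3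
      exact_mod_cast this
    have himg : ∀ a ∈ G3.image Prod.fst, (M : ℤ) ∣ a - α ∧ A < (a : ℝ) ∧ (a : ℝ) ≤ X ^ 2 := by
      intro a ha
      obtain ⟨x, hx, rfl⟩ := Finset.mem_image.1 ha
      obtain ⟨h1, h2⟩ := hG3m x hx
      exact ⟨(hG x h1).1, h2, (abs_le.1 (hG x h1).2.2.1).2⟩
    have hnum : ((G3.image Prod.fst).card : ℝ) ≤ X ^ 2 / M + 1 := by
      have h1 := cls_card (G3.image Prod.fst) M hM α 0 (X ^ 2) (by positivity) (by
        intro a ha
        obtain ⟨h1, h2, h3⟩ := himg a ha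
        exact ⟨h1, by linarith, h3⟩)
      rwa [sub_zero] at h1
    have hone : 1 ≤ 4 * (X ^ 2 / M) := by
      rw [mul_div_assoc', le_div_iff₀ hM0]
      linarith
    have hinv := sum_inv (G3.image Prod.fst) M hM α A hMA (fun a ha =>
      ⟨(himg a ha).1, (himg a ha).2.1⟩)
    rw [hcardsum]
    calc ∑ a ∈ G3.image Prod.fst, ((G3.filter (fun x => x.1 = a)).card : ℝ)
        ≤ ∑ a ∈ G3.image Prod.fst, (2 * A ^ 3 / (9 * M) * (1 / ((a : ℝ) * √a)) + 2) :=
          Finset.sum_le_sum hfib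
      _ = 2 * A ^ 3 / (9 * M) * (∑ a ∈ G3.image Prod.fst, 1 / ((a : ℝ) * √a)) +
          2 * (G3.image Prod.fst).card := by
          rw [Finset.sum_add_distrib, Finset.mul_sum, Finset.sum_const, nsmul_eq_mul]
          ring
      _ ≤ 2 * A ^ 3 / (9 * M) * (3 / (√A * M)) + 2 * (X ^ 2 / M + 1) := by gcongr
      _ = 2 / 3 * (A ^ 2 * √A / M ^ 2) + 2 * (X ^ 2 / M + 1) := by
          have : A ^ 3 = A ^ 2 * (√A * √A) := by rw [hsq]; ring
          rw [this]
          field_simp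
          ring
      _ ≤ _ := by linarith
  have hcast : (G.card : ℝ) = G1.card + G3.card := by exact_mod_cast hsplit
  have hp1 : 0 ≤ A ^ 2 * √A / (M : ℝ) ^ 2 := by positivity
  rw [hcast]
  linarith

theorem reg : S_REG := by
  classical
  refine ⟨10, by norm_num, ?_⟩
  intro X Y M ρ Q hX hY hYX hM hMY hQ1 hQ2 hρ F hF
  have hM0 : (0 : ℝ) < M := by exact_mod_cast hM
  have hMz : (0 : ℤ) < M := by exact_mod_cast hM
  have hY0 : 0 < Y := by linarith
  obtain ⟨A, hA⟩ : ∃ A, A = Y ^ (1 / 3 : ℝ) := ⟨_, rfl⟩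
  have hA0 : 0 < A := by rw [hA]; positivity
  have hA3 : A ^ 3 = Y := by
    rw [hA, ← Real.rpow_natCast, ← Real.rpow_mul hY0.le]
    norm_num
  have hMA : (M : ℝ) ≤ A := by
    refine le_of_pow_le_pow_left₀ (n := 3) (by norm_num) hA0.le ?_
    rw [hA3]
    exact hMY
  have hAX : A ≤ 4 * X ^ 2 := by
    refine le_of_pow_le_pow_left₀ (n := 3) (by norm_num) (by positivity) ?_
    rw [hA3]
    have : (4 * X ^ 2) ^ 3 = 64 * X ^ 6 := by ring
    rw [this]
    have : 0 < X ^ 6 := by positivity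
    linarith
  have hY56 : Y ^ (5 / 6 : ℝ) = A ^ 2 * √A := by
    rw [hA, Real.sqrt_eq_rpow, ← Real.rpow_natCast, ← Real.rpow_mul hY0.le,
      ← Real.rpow_mul hY0.le, ← Real.rpow_add hY0]
    norm_num
  rw [hY56]
  -- periodicity
  have hp1 : ∀ (k : ℤ) (a b : ℤ), Q (a + M * k) b ↔ Q a b := by
    intro k
    induction k using Int.induction_on with
    | zero => intro a b; simp
    | succ n ih =>
      intro a b
      rw [show a + (M : ℤ) * ((n : ℤ) + 1) = (a + M * n) + M by ring, hQ1, ih]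
    | pred n ih =>
      intro a b
      rw [← ih a b, ← hQ1 (a + (M : ℤ) * (-(n : ℤ) - 1)) b]
      rw [show a + (M : ℤ) * (-(n : ℤ) - 1) + M = a + M * (-(n : ℤ)) by ring]
  have hp2 : ∀ (k : ℤ) (a b : ℤ), Q a (b + M * k) ↔ Q a b := by
    intro k
    induction k using Int.induction_on with
    | zero => intro a b; simp
    | succ n ih =>
      intro a b
      rw [show b + (M : ℤ) * ((n : ℤ) + 1) = (b + M * n) + M by ring, hQ2, ih]
    | pred n ih =>
      intro a b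
      rw [← ih a b, ← hQ2 a (b + (M : ℤ) * (-(n : ℤ) - 1))]
      rw [show b + (M : ℤ) * (-(n : ℤ) - 1) + M = b + M * (-(n : ℤ)) by ring]
  have hmod : ∀ a b : ℤ, Q (a % M) (b % M) ↔ Q a b := by
    intro a b
    rw [← hp1 (a / M) (a % M) (b % M), ← hp2 (b / M) _ (b % M), Int.emod_add_mul_ediv,
      Int.emod_add_mul_ediv]
  obtain ⟨cl, hcl⟩ : ∃ cl : ℤ × ℤ → ℤ × ℤ, ∀ x, cl x = (x.1 % M, x.2 % M) := ⟨_, fun _ => rfl⟩
  have himg : ((F.image cl).card : ℝ) ≤ ρ := by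
    refine hρ _ ?_
    intro y hy
    obtain ⟨x, hx, rfl⟩ := Finset.mem_image.1 hy
    rw [hcl]
    exact ⟨Int.emod_nonneg _ hMz.ne', Int.emod_lt_of_pos _ hMz, Int.emod_nonneg _ hMz.ne',
      Int.emod_lt_of_pos _ hMz, (hmod x.1 x.2).2 (hF x hx).2.2⟩
  have hcard : (F.card : ℝ) = ∑ c ∈ F.image cl, ((F.filter (fun x => cl x = c)).card : ℝ) := by
    exact_mod_cast Finset.card_eq_sum_card_image cl F
  have hfib : ∀ c ∈ F.image cl, ((F.filter (fun x => cl x = c)).card : ℝ) ≤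
      10 * (A ^ 2 * √A / M ^ 2 + X ^ 2 / M) := by
    intro c _
    refine fiber X A M c.1 c.2 hX hM hMA hAX _ ?_
    intro x hx
    obtain ⟨hx1, hx2⟩ := Finset.mem_filter.1 hx
    rw [hcl] at hx2
    obtain ⟨h1, h2, -⟩ := hF x hx1
    refine ⟨?_, ?_, h1, by rw [hA3]; exact h2⟩
    · rw [← hx2]
      exact Int.dvd_self_sub_emod
    · rw [← hx2]
      exact Int.dvd_self_sub_emod
  rw [hcard]
  calc ∑ c ∈ F.image cl, ((F.filter (fun x => cl x = c)).card : ℝ)
      ≤ ∑ c ∈ F.image cl, 10 * (A ^ 2 * √A / M ^ 2 + X ^ 2 / M) := Finset.sum_le_sum hfib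
    _ = (F.image cl).card * (10 * (A ^ 2 * √A / M ^ 2 + X ^ 2 / M)) := by
        rw [Finset.sum_const, nsmul_eq_mul]
    _ ≤ ρ * (10 * (A ^ 2 * √A / M ^ 2 + X ^ 2 / M)) :=
        mul_le_mul_of_nonneg_right himg (by positivity)
    _ = 10 * ρ * (A ^ 2 * √A / M ^ 2 + X ^ 2 / M) := by ring

end Pool.Agent.N487.SZ
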